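import Mathlib
import Pool.Agent.Y368.MX.Core

/-!
MP_05aced_gt. Monotonicity of the normalised volume of projections of `ℓ_p` balls on the closed
range `[1, ∞]`, for mixed exponents and for general even log-concave profiles.
Author: helper368, on top of the starting library Helper934.
-/

open MeasureTheory Set
open scoped ENNReal

namespace Pool.Agent.Results.MP_05aced_gt.MixedExponents

open Pool.Agent.Helper934.Pr Pool.Agent.Y368.MX

/-- Euclidean space of dimension `m`. -/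
abbrev Eu (m : ℕ) := EuclideanSpace ℝ (Fin m)

/-- Linear subspaces of Euclidean space. -/
abbrev Sub (n : ℕ) := Submodule ℝ (Eu n)

/-- The closed unit ball of the `ℓ_p` norm on `ℝ^m`, `1 ≤ p ≤ ∞`; for `p = ∞` the cube. -/
def lpBall (m : ℕ) (p : ℝ≥0∞) : Set (Eu m) :=
  {x | (p = ⊤ → ∀ i, |x i| ≤ 1) ∧ (p ≠ ⊤ → ∑ i, |x i| ^ p.toReal ≤ 1)}

/-- The orthogonal projection of the `ℓ_p` ball of `ℝ^n` onto the subspace `H`. -/
def projBall {n : ℕ} (H : Sub n) (p : ℝ≥0∞) : Set H := H.orthogonalProjectionOnto '' lpBall n p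

/-- Lebesgue measure (of dimension `dim H`) of a subset of the Euclidean space `H`. -/
noncomputable def volH {n : ℕ} (H : Sub n) (S : Set H) : ℝ := (volume S).toReal

/-- Lebesgue measure of the closed unit ball of the `ℓ_p` norm on `ℝ^m`. -/
noncomputable def volBall (m : ℕ) (p : ℝ≥0∞) : ℝ := (volume (lpBall m p)).toReal

/-- The dimension of a subspace. -/
noncomputable def dimH {n : ℕ} (H : Sub n) : ℕ := Module.finrank ℝ H

/-- `R_H(p) = vol_k (Proj_H (B_p^n)) / vol_k (B_p^k)` where `k` is the dimension of `H`,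
for `1 ≤ p ≤ ∞`. -/
noncomputable def ratio {n : ℕ} (H : Sub n) (p : ℝ≥0∞) : ℝ :=
  volH H (projBall H p) / volBall (dimH H) p

/-- The orthogonal projection onto `H`. -/
noncomputable def prj {n : ℕ} (H : Sub n) (x : Eu n) : H := H.orthogonalProjectionOnto x

/-- The product of profiles. -/
noncomputable def prodF {n : ℕ} (F : Fin n → ℝ → ℝ) (x : Eu n) : ℝ≥0∞ :=
  ∏ i, ENNReal.ofReal (F i (x i))

/-- The supremum of the product of profiles over the fibre of `y`. -/
noncomputable def fibSup {n : ℕ} (H : Sub n) (F : Fin n → ℝ → ℝ) (y : H) : ℝ≥0∞ :=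
  ⨆ (x : Eu n) (_ : prj H x = y), prodF F x

/-- The integral over `H` of `y ↦ sup {∏ i, F i (x i) : Proj_H x = y}`. -/
noncomputable def shadow {n : ℕ} (H : Sub n) (F : Fin n → ℝ → ℝ) : ℝ≥0∞ :=
  ∫⁻ y : H, fibSup H F y

/-- `c` is the constant with `∫ exp (-c |r| ^ p) dr = 1`. -/
def Normalises (c p : ℝ) : Prop :=
  0 < c ∧ ∫⁻ r : ℝ, ENNReal.ofReal (Real.exp (-(c * |r| ^ p))) = 1

/-- The orthogonal projection in coordinates. -/
noncomputable def TT {n : ℕ} (H : Sub n) : (Fin n → ℝ) →ₗ[ℝ] H :=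
  (H.orthogonalProjectionOnto : EuclideanSpace ℝ (Fin n) →ₗ[ℝ] H) ∘ₗ
    ((WithLp.linearEquiv 2 ℝ (Fin n → ℝ)).symm : (Fin n → ℝ) →ₗ[ℝ] EuclideanSpace ℝ (Fin n))

/-- The unit ball in coordinates. -/
def cBall (m : ℕ) (p : ℝ≥0∞) : Set (Fin m → ℝ) :=
  {x | (p = ⊤ → ∀ i, |x i| ≤ 1) ∧ (p ≠ ⊤ → ∑ i, |x i| ^ p.toReal ≤ 1)}

theorem cBall_top (m : ℕ) : cBall m ⊤ = {x | ∀ i, |x i| ≤ 1} := by
  ext x
  simp [cBall]

theorem cBall_fin (m : ℕ) {p : ℝ≥0∞} (hp : p ≠ ⊤) :
    cBall m p = {x | ∑ i, |x i| ^ p.toReal ≤ 1} := by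
  ext x
  simp [cBall, hp]

theorem volume_lpBall (m : ℕ) (p : ℝ≥0∞) : volume (lpBall m p) = volume (cBall m p) := by
  have h := (EuclideanSpace.volume_preserving_symm_measurableEquiv_toLp (Fin m)).measure_preimage_equiv
    (cBall m p)
  rw [← h]
  rfl

theorem TT_image {n : ℕ} (H : Sub n) (p : ℝ≥0∞) : TT H '' cBall n p = projBall H p := by
  ext y
  constructor
  · rintro ⟨x, hx, rfl⟩
    exact ⟨(WithLp.linearEquiv 2 ℝ (Fin n → ℝ)).symm x, hx, rfl⟩
  · rintro ⟨x, hx, rfl⟩
    exact ⟨(WithLp.linearEquiv 2 ℝ (Fin n → ℝ)) x, hx, rfl⟩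

theorem shadow_eq {n : ℕ} (H : Sub n) (F : Fin n → ℝ → ℝ) :
    shadow H F = ∫⁻ y, SS (TT H) F y := by
  unfold shadow
  apply lintegral_congr
  intro y
  unfold SS fibSup
  exact (Equiv.iSup_congr (WithLp.linearEquiv 2 ℝ (Fin n → ℝ)).symm.toEquiv (fun x => rfl)).symm

theorem vol_pos (m : ℕ) {p : ℝ≥0∞} (hp : 1 ≤ p) :
    volume (cBall m p) ≠ 0 ∧ volume (cBall m p) ≠ ⊤ := by
  have hsub : cBall m p ⊆ {x | ∀ i, |x i| ≤ 1} := by
    by_cases h : p = ⊤
    · rw [h, cBall_top]
    · rw [cBall_fin m h]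
      refine ball_le_cube _ ?_
      rw [← ENNReal.toReal_one]
      exact (ENNReal.toReal_le_toReal ENNReal.one_ne_top h).2 hp
  have hcube : volume {x : Fin m → ℝ | ∀ i, |x i| ≤ 1} ≠ ⊤ := by
    have : {x : Fin m → ℝ | ∀ i, |x i| ≤ 1} ⊆ Set.pi Set.univ fun _ => Icc (-1 : ℝ) 1 := by
      intro x hx i _
      exact abs_le.1 (hx i)
    refine ne_top_of_le_ne_top ?_ (measure_mono this)
    rw [volume_pi_pi]
    simp only [Real.volume_Icc, Finset.prod_const]
    exact ENNReal.pow_ne_top ENNReal.ofReal_ne_top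
  refine ⟨?_, ne_top_of_le_ne_top hcube (measure_mono hsub)⟩
  by_cases h : p = ⊤
  · have h2 := cube_le_ball m 1 le_rfl
    rw [h, cBall_top]
    obtain ⟨c, hc, -, hcL⟩ := ex_norm 1 le_rfl
    have h3 := norm_id m c 1 hc le_rfl hcL
    have h4 := measure_mono (μ := volume) (ball_le_cube (n := m) 1 le_rfl)
    intro h0
    rw [h0] at h4
    rw [le_antisymm h4 (zero_le), mul_zero] at h3
    exact zero_ne_one h3
  · rw [cBall_fin m h]
    have hp1 : 1 ≤ p.toReal := by
      rw [← ENNReal.toReal_one]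
      exact (ENNReal.toReal_le_toReal ENNReal.one_ne_top h).2 hp
    obtain ⟨c, hc, -, hcL⟩ := ex_norm p.toReal hp1
    have h3 := norm_id m c p.toReal hc hp1 hcL
    intro h0
    rw [h0, mul_zero] at h3
    exact zero_ne_one h3

theorem proj_fin {n : ℕ} (H : Sub n) {p : ℝ≥0∞} (hp : 1 ≤ p) : volume (projBall H p) ≠ ⊤ := by
  rw [← TT_image]
  have hb : Bornology.IsBounded (cBall n p) := by
    refine (Metric.isBounded_closedBall (x := (0 : Fin n → ℝ)) (r := 1)).subset ?_
    intro x hx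
    rw [mem_closedBall_zero_iff, pi_norm_le_iff_of_nonneg zero_le_one]
    intro i
    rw [Real.norm_eq_abs]
    by_cases h : p = ⊤
    · exact hx.1 h i
    · refine ball_le_cube p.toReal ?_ (hx.2 h) i
      rw [← ENNReal.toReal_one]
      exact (ENNReal.toReal_le_toReal ENNReal.one_ne_top h).2 hp
  have hc : Continuous (TT H) := (TT H).continuous_of_finiteDimensional
  exact (hb.isCompact_closure.image hc).measure_lt_top.ne |> fun h =>
    ne_top_of_le_ne_top h (measure_mono (image_mono subset_closure))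

/-- The inequality in extended nonnegative reals. -/
theorem mono_ennreal {n : ℕ} (H : Sub n) {p q : ℝ≥0∞} (hp : 1 ≤ p) (hpq : p ≤ q) :
    volume (projBall H p) / volume (cBall (Module.finrank ℝ H) p) ≤
      volume (projBall H q) / volume (cBall (Module.finrank ℝ H) q) := by
  rw [← TT_image, ← TT_image]
  by_cases hq : q = ⊤
  · by_cases hp' : p = ⊤
    · rw [hq, hp']
    · have hp1 : 1 ≤ p.toReal := by
        rw [← ENNReal.toReal_one]
        exact (ENNReal.toReal_le_toReal ENNReal.one_ne_top hp').2 hp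
      rw [hq, cBall_top, cBall_top, cBall_fin _ hp', cBall_fin _ hp']
      exact main_top volume (TT H) p.toReal hp1
  · have hp' : p ≠ ⊤ := ne_top_of_le_ne_top hq hpq
    have hp1 : 1 ≤ p.toReal := by
      rw [← ENNReal.toReal_one]
      exact (ENNReal.toReal_le_toReal ENNReal.one_ne_top hp').2 hp
    rw [cBall_fin _ hq, cBall_fin _ hq, cBall_fin _ hp', cBall_fin _ hp']
    exact main_ineq volume (TT H) p.toReal q.toReal hp1 ((ENNReal.toReal_le_toReal hp' hq).2 hpq)

theorem ratio_eq {n : ℕ} (H : Sub n) (p : ℝ≥0∞) :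
    ratio H p = (volume (projBall H p) / volume (cBall (Module.finrank ℝ H) p)).toReal := by
  unfold ratio volH volBall dimH
  rw [ENNReal.toReal_div, volume_lpBall]

theorem mono {n : ℕ} (H : Sub n) : MonotoneOn (ratio H) (Ici 1) := by
  intro p hp q hq hpq
  rw [ratio_eq, ratio_eq]
  exact ENNReal.toReal_mono (ENNReal.div_ne_top (proj_fin H hq) (vol_pos _ hq).1)
    (mono_ennreal H hp hpq)

/-- The Euclidean exponent. -/
theorem ratio_two {n : ℕ} (H : Sub n) : ratio H 2 = 1 := by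
  have h2 : (2 : ℝ≥0∞) ≠ ⊤ := by norm_num
  have hball : ∀ m : ℕ, lpBall m 2 = Metric.closedBall (0 : Eu m) 1 := by
    intro m
    ext x
    rw [mem_closedBall_zero_iff, EuclideanSpace.norm_eq, Real.sqrt_le_iff]
    have h3 : x ∈ lpBall m 2 ↔ ∑ i, |x i| ^ (2 : ℝ) ≤ 1 := by
      constructor
      · intro h
        have h4 := h.2 h2
        rwa [ENNReal.toReal_ofNat] at h4
      · intro h
        refine ⟨fun h4 => absurd h4 h2, fun _ => ?_⟩
        rwa [ENNReal.toReal_ofNat]
    have h5 : ∀ i, |x i| ^ (2 : ℝ) = ‖x i‖ ^ 2 := by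
      intro i
      rw [Real.rpow_two, Real.norm_eq_abs]
    rw [h3]
    simp only [h5, one_pow, zero_le_one, true_and]
  have hproj : projBall H 2 = Metric.closedBall (0 : H) 1 := by
    unfold projBall
    rw [hball]
    ext y
    rw [mem_closedBall_zero_iff]
    constructor
    · rintro ⟨x, hx, rfl⟩
      rw [mem_closedBall_zero_iff] at hx
      exact (H.norm_orthogonalProjectionOnto_apply_le x).trans hx
    · intro hy
      refine ⟨(y : Eu n), ?_, ?_⟩
      · rw [mem_closedBall_zero_iff]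
        exact hy
      · exact H.orthogonalProjectionOnto_mem_subspace_eq_self y
  have hvol : volume (Metric.closedBall (0 : H) 1) =
      volume (Metric.closedBall (0 : Eu (Module.finrank ℝ H)) 1) := by
    have e := (stdOrthonormalBasis ℝ H).repr
    have h1 := e.measurePreserving.measure_preimage
      (s := Metric.closedBall (0 : Eu (Module.finrank ℝ H)) 1)
      measurableSet_closedBall.nullMeasurableSet
    rw [e.preimage_closedBall, map_zero] at h1
    exact h1
  unfold ratio volH volBall dimH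
  rw [hproj, hball, hvol, div_self]
  rw [← hball, volume_lpBall]
  exact (ENNReal.toReal_pos (vol_pos _ (by norm_num)).1 (vol_pos _ (by norm_num)).2).ne'

/-- (1) Q1 on the closed range: `R_H` is nondecreasing on `[1, ∞]`. -/
def ClosedRange : Prop := ∀ (n : ℕ) (H : Sub n), MonotoneOn (ratio H) (Ici 1)

/-- (2) `R_H(2) = 1`, so `R_H ≤ 1` on `[1, 2]` and `R_H ≥ 1` on `[2, ∞]`. -/
def Extremal : Prop := ∀ (n : ℕ) (H : Sub n), ratio H 2 = 1 ∧
  (∀ p : ℝ≥0∞, 1 ≤ p → p ≤ 2 → ratio H p ≤ 1) ∧ ∀ p : ℝ≥0∞, 2 ≤ p → 1 ≤ ratio H p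

/-- The profile `r ↦ exp (-c |r| ^ p)`. -/
noncomputable def expo (c p r : ℝ) : ℝ := Real.exp (-(c * |r| ^ p))

/-- (3) Mixed exponents: the functional is nondecreasing in every exponent. -/
def MixedMono : Prop := ∀ (n : ℕ) (H : Sub n) (P Q c c' : Fin n → ℝ), (∀ i, 1 ≤ P i) →
  (∀ i, P i ≤ Q i) → (∀ i, Normalises (c i) (P i)) → (∀ i, Normalises (c' i) (Q i)) →
  shadow H (fun i => expo (c i) (P i)) ≤ shadow H (fun i => expo (c' i) (Q i))

/-- (4) On the diagonal the functional is `R_H`. -/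
def Diagonal : Prop := ∀ (n : ℕ) (H : Sub n) (p c : ℝ), 1 ≤ p → Normalises c p →
  (shadow H (fun _ => expo c p)).toReal = ratio H (ENNReal.ofReal p)

/-- (5) General even log-concave profiles `F i`, `G i` such that `F i` is moved to `G i` by a
contraction. -/
def General : Prop := ∀ (n : ℕ) (H : Sub n) (F G : Fin n → ℝ → ℝ), (∀ i, Prof (F i)) →
  (∀ i, Prof (G i)) → (∀ i, F i = G i ∨ Dom (F i) (G i)) → shadow H F ≤ shadow H G

theorem result : ClosedRange ∧ Extremal ∧ MixedMono ∧ Diagonal ∧ General := by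
  refine ⟨fun n H => mono H, fun n H => ⟨ratio_two H, fun p h1 h2 => ?_, fun p h2 => ?_⟩, ?_, ?_, ?_⟩
  · rw [← ratio_two H]
    exact mono H h1 (show (1 : ℝ≥0∞) ≤ 2 by norm_num) h2
  · rw [← ratio_two H]
    exact mono H (show (1 : ℝ≥0∞) ≤ 2 by norm_num)
      (show (1 : ℝ≥0∞) ≤ p from le_trans (by norm_num) h2) h2
  · intro n H P Q c c' hP hPQ hc hc'
    rw [shadow_eq, shadow_eq]
    exact mixed volume (TT H) P Q c c' hP hPQ (fun i => (hc i).1) (fun i => (hc' i).1)
      (fun i => (hc i).2) (fun i => (hc' i).2)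
  · intro n H p c hp hc
    have h1 : ENNReal.ofReal p ≠ ⊤ := ENNReal.ofReal_ne_top
    have h2 : (ENNReal.ofReal p).toReal = p := ENNReal.toReal_ofReal (by linarith)
    rw [shadow_eq, ratio_eq, ← TT_image, cBall_fin _ h1, cBall_fin _ h1, h2]
    congr 1
    exact diag volume (TT H) p c hp hc.1 hc.2
  · intro n H F G hF hG hd
    rw [shadow_eq, shadow_eq]
    exact chainG volume (TT H) F G hF hG hd

end Pool.Agent.Results.MP_05aced_gt.MixedExponents
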